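import Pool.Agent.Lib.MP_e276f9_lc.Df

/-! Closure properties of elementary submodels of `H θ`. -/

set_option autoImplicit false

namespace Pool.Agent.Lib.MP_e276f9_lc

open Cardinal ZFSet FirstOrder Language

universe u

variable {θ : Cardinal.{u}} {M a b f n : ZFSet.{u}}

/-- The image of `s` inside `a`. -/
noncomputable def img (f s a : ZFSet.{u}) : ZFSet.{u} := a.sep fun t => ∃ ξ ∈ s, pair ξ t ∈ f

/-- The preimage of `s` inside `n`. -/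
noncomputable def pre (f s n : ZFSet.{u}) : ZFSet.{u} := n.sep fun ξ => ∃ t ∈ s, pair ξ t ∈ f

theorem Cov.card_img (h : Cov f n a) {s : ZFSet.{u}} (hs : s ⊆ n) : (img f s a).card ≤ s.card :=
  Cov.card_le (f := f) ⟨fun _ ht => (mem_sep.1 ht).2, fun ξ hξ t ht r hr =>
    h.2 ξ (hs hξ) t (mem_sep.1 ht).1 r (mem_sep.1 hr).1⟩

namespace Elem

theorem memH (h : Elem M θ) (ha : a ∈ M) : a ∈ H θ :=
  h.elim fun _ hS => ((hS a).1 ha).elim fun z hz => hz.2 ▸ z.2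

theorem ex (h : Elem M θ) {P : (ℕ → ZFSet.{u}) → Prop} (hP : Df θ P) {v : ℕ → ZFSet.{u}}
    (hv : ∀ i, v i ∈ M) (e : ∃ x ∈ H θ, P (cs x v)) : ∃ x ∈ M, P (cs x v) := by
  obtain ⟨S, hS⟩ := h
  obtain ⟨φ, hφ⟩ := hP
  choose w hw using fun i => (hS _).1 (hv i)
  obtain rfl : (fun i => (w i).1) = v := funext fun i => (hw i).2
  obtain ⟨x, hx, e⟩ := e
  have h1 : (exF φ).Realize (S.subtype ∘ fun i => (⟨w i, (hw i).1⟩ : S)) :=
    (realize_exF φ _).2 ⟨⟨x, hx⟩, (hφ _).1 (by rwa [cs_val])⟩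
  obtain ⟨y, hy⟩ := (realize_exF φ _).1 ((S.subtype.map_formula _ _).1 h1)
  refine ⟨y.1.1, (hS _).2 ⟨y.1, y.2, rfl⟩, ?_⟩
  have h2 := (hφ _).2 ((S.subtype.map_formula _ _).2 hy)
  convert h2 using 2 with i
  cases i <;> rfl

theorem sep (h : Elem M θ) {P : (ℕ → ZFSet.{u}) → Prop} (hP : Df θ P) {v : ℕ → ZFSet.{u}}
    (hv : ∀ i, v i ∈ M) (hb : b ∈ M) : (b.sep fun t => P (cs t v)) ∈ M := by
  have h1 : Df θ fun w => P (cs (w 0) fun i => w (i + 3)) :=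
    (hP.ren (cs 0 fun i => i + 3)).congr fun w _ => by
      rw [show (fun i => w (cs 0 (fun i => i + 3) i)) = cs (w 0) fun i => w (i + 3) from
        funext fun i => by cases i <;> rfl]
  obtain ⟨x, hx, e1, e2⟩ := h.ex ((Df.ball 0 ((Df.mem 0 2).and h1)).and
    (Df.ball 1 (h1.imp (Df.mem 0 1)))) (cs_all hb hv)
    ⟨b.sep fun t => P (cs t v), H_sub (fun _ a => (mem_sep.1 a).1) (h.memH hb),
      fun _ a => (mem_sep (p := fun t => P (cs t v))).1 a,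
      fun _ a c => (mem_sep (p := fun t => P (cs t v))).2 ⟨a, c⟩⟩
  have e : x = b.sep fun t => P (cs t v) := ZFSet.ext fun t =>
    ⟨fun a => mem_sep.2 (e1 t a), fun a => e2 t (mem_sep.1 a).1 (mem_sep.1 a).2⟩
  exact e ▸ hx

theorem inter (h : Elem M θ) (ha : a ∈ M) (hb : b ∈ M) : a ∩ b ∈ M := by
  obtain ⟨x, hx, e⟩ := h.ex (Df.inter 0 1 2) (v := cs a fun _ => b) (cs_all ha fun _ => hb)
    ⟨a ∩ b, H_sub (fun _ c => (mem_inter.1 c).1) (h.memH ha), rfl⟩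
  exact (show x = a ∩ b from e) ▸ hx

theorem sUnion (h : Elem M θ) (ha : a ∈ M) : ⋃₀ a ∈ M := by
  obtain ⟨x, hx, e1, e2⟩ := h.ex ((Df.ball 0 (Df.bex 2 (Df.mem 1 0))).and
    (Df.ball 1 (Df.sub 0 1))) (v := fun _ => a) (fun _ => ha)
    ⟨⋃₀ a, H_sUnion (h.memH ha), fun _ c => mem_sUnion.1 c,
      fun r c _ d => mem_sUnion.2 ⟨r, c, d⟩⟩
  have e : x = ⋃₀ a := ZFSet.ext fun t => ⟨fun c => mem_sUnion.2 (e1 t c),
    fun c => (mem_sUnion.1 c).elim fun r d => e2 r d.1 d.2⟩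
  exact e ▸ hx

theorem insert (h : Elem M θ) (hθ : θ.IsRegular) (ha : a ∈ M) (hb : b ∈ M) :
    insert a b ∈ M := by
  obtain ⟨x, hx, e1, e2, e3⟩ := h.ex ((Df.ball 0 ((Df.eq 0 2).or (Df.mem 0 3))).and
    ((Df.mem 1 0).and (Df.sub 2 0))) (v := cs a fun _ => b) (cs_all ha fun _ => hb)
    ⟨Insert.insert a b, H_insert hθ (h.memH ha) (h.memH hb), fun _ c => mem_insert_iff.1 c,
      mem_insert _ _, fun _ c => mem_insert_of_mem _ c⟩
  have e : x = Insert.insert a b := ZFSet.ext fun t => ⟨fun c => mem_insert_iff.2 (e1 t c),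
    fun c => (mem_insert_iff.1 c).elim (fun d => d ▸ e2) fun d => e3 d⟩
  exact e ▸ hx

theorem empty (h : Elem M θ) (ha : a ∈ M) : ∅ ∈ M := by
  have h1 := h.sep (Df.eq 0 0).not (v := fun _ => a) (fun _ => ha) ha
  rwa [(eq_empty (a.sep _)).2 (by simp)] at h1

theorem powerset (h : Elem M θ) (hθ : θ.IsRegular) (ha : a ∈ M) (hp : 2 ^ a.card < θ) :
    powerset a ∈ M := by
  obtain ⟨x, hx, e1, e2⟩ := h.ex ((Df.ball 0 (Df.sub 0 2)).and
    (Df.all ((Df.sub 0 2).imp (Df.mem 0 1)))) (v := fun _ => a) (fun _ => ha)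
    ⟨ZFSet.powerset a, H_of hθ (by rwa [card_powerset])
      fun _ c => H_sub (mem_powerset.1 c) (h.memH ha),
      fun _ c => mem_powerset.1 c, fun _ _ c => mem_powerset.2 c⟩
  have e : x = ZFSet.powerset a := ZFSet.ext fun t => ⟨fun c => mem_powerset.2 (e1 t c),
    fun c => e2 t (H_sub (mem_powerset.1 c) (h.memH ha)) (mem_powerset.1 c)⟩
  exact e ▸ hx

theorem cov (h : Elem M θ) (hθ : θ.IsRegular) (ha : a ∈ M) (hn : n ∈ M) (e : a.card ≤ n.card) :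
    ∃ f ∈ M, Cov f n a :=
  h.ex (Df.cov 0 1 2) (v := cs n fun _ => a) (cs_all hn fun _ => ha)
    (H_cov hθ (h.memH ha) (h.memH hn) e)

theorem img (h : Elem M θ) (hf : f ∈ M) (hn : n ∈ M) (ha : a ∈ M) : img f n a ∈ M :=
  h.sep (Df.bex 1 (Df.pm 0 1 3)) (v := cs n fun _ => f) (cs_all hn fun _ => hf) ha

theorem pre (h : Elem M θ) (hf : f ∈ M) (ha : a ∈ M) (hn : n ∈ M) : pre f a n ∈ M :=
  h.sep (Df.bex 1 (Df.pm 1 0 3)) (v := cs a fun _ => f) (cs_all ha fun _ => hf) hn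

/-- A member of `M` that is not larger than a member and subset of `M` is a subset of `M`. -/
theorem small (h : Elem M θ) (hθ : θ.IsRegular) (ha : a ∈ M) (hn : n ∈ M) (hM : n ⊆ M)
    (e : a.card ≤ n.card) : a ⊆ M := fun t ht => by
  obtain ⟨f, hf, hc⟩ := h.cov hθ ha hn e
  obtain ⟨ξ, h1, h2⟩ := hc.1 t ht
  obtain ⟨s, hs, h3, h4⟩ := h.ex ((Df.mem 0 1).and (Df.pm 2 0 3))
    (v := cs a (cs ξ fun _ => f)) (cs_all ha (cs_all (hM h1) fun _ => hf))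
    ⟨t, H_mem ht (h.memH ha), ht, h2⟩
  exact hc.2 ξ h1 s h3 t ht h4 h2 ▸ hs

theorem exists_mem (h : Elem M θ) (ha : a ∈ M) (hb : b ∈ M) (e : b ∈ ⋃₀ a) :
    ∃ r ∈ M, r ∈ a ∧ b ∈ r :=
  h.ex ((Df.mem 0 1).and (Df.mem 2 0)) (v := cs a fun _ => b) (cs_all ha fun _ => hb)
    ((mem_sUnion.1 e).elim fun r c => ⟨r, H_mem c.1 (h.memH ha), c⟩)

/-- A large member of `M` has many elements in `M`. -/
theorem card_inter (h : Elem M θ) (hθ : θ.IsRegular) (ha : a ∈ M) (hn : n ∈ M) (hM : n ⊆ M)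
    (e : n.card ≤ a.card) : n.card ≤ (a ∩ M).card := by
  obtain ⟨f, hf, -, -⟩ := exists_cov e
  choose j hj using fun t : Shrink n => hf.1 _ ((equivShrink n).symm t).2
  have h1 : range j ⊆ a := fun _ c => (mem_range.1 c).elim fun t d => d ▸ (hj t).1
  obtain ⟨w, hw, h2, h3, h4⟩ := h.ex ((Df.sub 0 1).and ((Df.le hθ 0 2).and (Df.le hθ 2 0)))
    (v := cs a fun _ => n) (cs_all ha fun _ => hn)
    ⟨range j, H_sub h1 (h.memH ha), h1, card_range j, Cov.card_le (f := f)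
      ⟨fun t ht => ⟨j (equivShrink n ⟨t, ht⟩), mem_range.2 ⟨_, rfl⟩,
        by simpa using (hj (equivShrink n ⟨t, ht⟩)).2⟩, fun ξ c => hf.2 ξ (h1 c)⟩⟩
  exact h4.trans (card_mono fun t c => mem_inter.2 ⟨h2 c, h.small hθ hw hn hM h3 c⟩)

/-- The size of a small member of `M` lies in `M`. -/
theorem card_mem (h : Elem M θ) (hθ : θ.IsRegular) (ha : a ∈ M) {κ : Ordinal.{u}}
    (hκ : κ.toZFSet ∈ M) (e : a.card.ord < κ) : a.card.ord.toZFSet ∈ M := by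
  have h1 := Ordinal.toZFSet_mem_toZFSet_iff.2 e
  obtain ⟨c, hc, h2, h3, h4⟩ := h.ex ((Df.mem 0 1).and ((Df.le hθ 2 0).and
    (Df.ball 0 (Df.le hθ 3 0).not))) (v := cs κ.toZFSet fun _ => a) (cs_all hκ fun _ => ha)
    ⟨_, H_mem h1 (h.memH hκ), h1, ((Ordinal.card_toZFSet _).trans (card_ord _)).ge,
      fun d hd => by
        obtain ⟨β, hβ, rfl⟩ := Ordinal.mem_toZFSet_iff.1 hd
        exact ((Ordinal.card_toZFSet _).trans_lt (lt_ord.1 hβ)).not_ge⟩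
  obtain ⟨β, -, rfl⟩ := Ordinal.mem_toZFSet_iff.1 h2
  have h5 : a.card.ord ≤ β := ord_le.2 (le_trans h3 (Ordinal.card_toZFSet _).le)
  obtain rfl : a.card.ord = β := h5.eq_or_lt.resolve_right fun c =>
    h4 _ (Ordinal.toZFSet_mem_toZFSet_iff.2 c) ((Ordinal.card_toZFSet _).trans (card_ord _)).ge
  exact hc

theorem aleph0_le (h : Elem M θ) (hθ : θ.IsRegular) (ha : a ∈ M) : ℵ₀ ≤ M.card := by
  have h1 : ∀ k : ℕ, (k : Ordinal.{u}).toZFSet ∈ M := fun k => by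
    induction k with
    | zero => simpa using h.empty ha
    | succ k ih =>
      rw [Nat.cast_succ, Ordinal.toZFSet_add_one]
      exact h.insert hθ ih ih
  rw [← Ordinal.card_omega0, ← Ordinal.card_toZFSet]
  refine card_mono fun t ht => ?_
  obtain ⟨β, hβ, rfl⟩ := Ordinal.mem_toZFSet_iff.1 ht
  obtain ⟨k, rfl⟩ := Ordinal.lt_omega0.1 hβ
  exact h1 k

end Elem

end Pool.Agent.Lib.MP_e276f9_lc
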