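import Mathlib

/-! The structures `H θ`, elementary submodels, guessing models and weak Kurepa families. -/

set_option autoImplicit false

namespace Pool.Agent.Lib.MP_e276f9_lc

open Cardinal FirstOrder

universe u

/-- The sets contained in a transitive set of size less than `θ`. -/
def H (θ : Cardinal.{u}) : Set ZFSet.{u} :=
  {x | ∃ t : ZFSet.{u}, t.IsTransitive ∧ x ⊆ t ∧ t.card < θ}

/-- The binary relation symbol is read as membership. -/
instance memStructure (θ : Cardinal.{u}) : Language.graph.Structure (H θ) where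
  RelMap | .adj => fun v => (v 0).1 ∈ (v 1).1

/-- `M` is an elementary submodel of `(H θ, ∈)`. -/
def Elem (M : ZFSet.{u}) (θ : Cardinal.{u}) : Prop :=
  ∃ S : Language.graph.ElementarySubstructure (H θ), ∀ y, y ∈ M ↔ ∃ z ∈ S, z.1 = y

/-- The least ordinal of `M` that is not a subset of `M` (zero if there is none). -/
noncomputable def kap (M : ZFSet.{u}) : Ordinal.{u} :=
  sInf {α | α.toZFSet ∈ M ∧ ¬ α.toZFSet ⊆ M}

/-- `x` is bounded in `M`. -/
def Bounded (M x : ZFSet.{u}) : Prop := ∃ X ∈ M, x ⊆ X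

/-- `x` is `δ`-approximated in `M`. -/
def Approx (δ : Cardinal.{u}) (M x : ZFSet.{u}) : Prop := ∀ a ∈ M, a.card < δ → x ∩ a ∈ M

/-- `x` is guessed in `M`. -/
def Guessed (M x : ZFSet.{u}) : Prop := ∃ y ∈ M, y ∩ M = x ∩ M

/-- `M` is `δ`-guessing. -/
def Guessing (δ : Cardinal.{u}) (M : ZFSet.{u}) : Prop :=
  ∀ x, Bounded M x → Approx δ M x → Guessed M x

/-- `M` is `0`-guessing. -/
def Guessing0 (M : ZFSet.{u}) : Prop := ∀ x, Bounded M x → Guessed M x

/-- There are more than `l` subsets of `l` that have at most `l` initial segments in all. -/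
def WeakKurepa (l : Cardinal.{u}) : Prop :=
  ∃ F T : ZFSet.{u}, l < F.card ∧ T.card ≤ l ∧
    ∀ y ∈ F, y ⊆ l.ord.toZFSet ∧ ∀ α < l.ord, y ∩ α.toZFSet ∈ T

end Pool.Agent.Lib.MP_e276f9_lc
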