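import Pool.Agent.Lib.MP_e276f9_lc.Defs

/-! Sizes of sets, the sets `H θ`, and predicates definable in `H θ`. -/

set_option autoImplicit false

namespace Pool.Agent.Lib.MP_e276f9_lc

open Cardinal ZFSet FirstOrder Language

universe u

theorem enum (e : ZFSet.{u}) : ∃ (ι : Type u) (p : ι → ZFSet.{u}),
    Cardinal.mk ι = e.card ∧ ∀ y, y ∈ e ↔ ∃ i, p i = y :=
  ⟨Shrink e, fun i => ((equivShrink e).symm i).1, rfl, fun y =>
    ⟨fun h => ⟨equivShrink e ⟨y, h⟩, by simp⟩, fun ⟨i, h⟩ => h ▸ ((equivShrink e).symm i).2⟩⟩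

theorem card_range {ι : Type u} (f : ι → ZFSet.{u}) : (range f).card ≤ Cardinal.mk ι := by
  simpa using lift_card_range_le (f := f)

theorem card_iUnion {ι : Type u} (f : ι → ZFSet.{u}) :
    (iUnion f).card ≤ Cardinal.sum fun i => (f i).card := by
  simpa using lift_card_iUnion_le_sum_card (f := f)

/-- The union of a family indexed by a set. -/
noncomputable def bU (z : ZFSet.{u}) (F : ZFSet.{u} → ZFSet.{u}) : ZFSet.{u} :=
  iUnion fun i : Shrink z => F ((equivShrink z).symm i).1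

theorem mem_bU {z t : ZFSet.{u}} {F : ZFSet.{u} → ZFSet.{u}} : t ∈ bU z F ↔ ∃ i ∈ z, t ∈ F i :=
  mem_iUnion.trans ⟨fun ⟨i, h⟩ => ⟨_, ((equivShrink z).symm i).2, h⟩,
    fun ⟨i, h, e⟩ => ⟨equivShrink z ⟨i, h⟩, by simpa using e⟩⟩

theorem card_bU_lt {γ : Cardinal.{u}} (hγ : γ.IsRegular) {z : ZFSet.{u}}
    {F : ZFSet.{u} → ZFSet.{u}} (hz : z.card < γ) (hF : ∀ i ∈ z, (F i).card < γ) :
    (bU z F).card < γ :=
  (card_iUnion _).trans_lt (sum_lt_of_isRegular hγ hz fun i => hF _ ((equivShrink z).symm i).2)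

theorem card_bU_le {γ : Cardinal.{u}} (hγ : ℵ₀ ≤ γ) {z : ZFSet.{u}}
    {F : ZFSet.{u} → ZFSet.{u}} (hz : z.card ≤ γ) (hF : ∀ i ∈ z, (F i).card ≤ γ) :
    (bU z F).card ≤ γ :=
  Order.lt_succ_iff.1 (card_bU_lt (isRegular_succ hγ) (Order.lt_succ_iff.2 hz)
    fun i hi => Order.lt_succ_iff.2 (hF i hi))

/-- Fewer than `γ` requirements are met below one ordinal. -/
theorem bdd {γ : Cardinal.{u}} (hγ : γ.IsRegular) {z : ZFSet.{u}} (hz : z.card < γ)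
    {R : ZFSet.{u} → Ordinal.{u} → Prop} (h : ∀ t ∈ z, ∃ ξ < γ.ord, R t ξ) :
    ∃ ζ < γ.ord, ∀ t ∈ z, ∃ ξ < ζ, R t ξ := by
  obtain ⟨ι, p, hι, hp⟩ := enum z
  choose f hf using fun i => h (p i) ((hp _).2 ⟨i, rfl⟩)
  refine ⟨_, Ordinal.iSup_add_one_lt_of_lt_cof (f := f) (hγ.cof_ord.symm ▸ hι ▸ hz)
    fun i => (hf i).1, fun t ht => ?_⟩
  obtain ⟨i, rfl⟩ := (hp t).1 ht
  exact ⟨f i, Ordinal.lt_iSup_add_one f i, (hf i).2⟩

/-- `f` maps a part of `n` onto `a`. -/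
def Cov (f n a : ZFSet.{u}) : Prop :=
  (∀ t ∈ a, ∃ ξ ∈ n, pair ξ t ∈ f) ∧
    ∀ ξ ∈ n, ∀ t ∈ a, ∀ s ∈ a, pair ξ t ∈ f → pair ξ s ∈ f → t = s

theorem Cov.card_le {f n a : ZFSet.{u}} (h : Cov f n a) : a.card ≤ n.card := by
  choose j hj using fun t : a => h.1 t.1 t.2
  rw [← lift_le.{u + 1}, ← cardinalMk_coe_sort, ← cardinalMk_coe_sort]
  refine mk_le_of_injective (f := fun t : a => (⟨j t, (hj t).1⟩ : n)) fun t s e => ?_
  have e' : j t = j s := congrArg Subtype.val e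
  exact Subtype.ext (h.2 _ (hj t).1 _ t.2 _ s.2 (hj t).2 (e' ▸ (hj s).2))

theorem exists_cov {n a : ZFSet.{u}} (h : a.card ≤ n.card) :
    ∃ f, Cov f n a ∧ f.card ≤ a.card ∧ ∀ p ∈ f, ∃ ξ ∈ n, ∃ t ∈ a, pair ξ t = p := by
  rw [← lift_le.{u + 1}, ← cardinalMk_coe_sort, ← cardinalMk_coe_sort] at h
  obtain ⟨j⟩ := (le_def _ _).1 h
  have key : ∀ p, p ∈ (range fun i : Shrink a => pair (j ((equivShrink a).symm i)).1
      ((equivShrink a).symm i).1) ↔ ∃ t : a, pair (j t).1 t.1 = p := fun p =>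
    mem_range.trans ⟨fun ⟨i, e⟩ => ⟨_, e⟩, fun ⟨t, e⟩ => ⟨equivShrink a t, by simpa using e⟩⟩
  refine ⟨_, ⟨fun t ht => ⟨_, (j ⟨t, ht⟩).2, (key _).2 ⟨⟨t, ht⟩, rfl⟩⟩,
    fun ξ _ t _ s _ h1 h2 => ?_⟩, card_range _, fun p hp => ?_⟩
  · obtain ⟨t', e1⟩ := (key _).1 h1
    obtain ⟨s', e2⟩ := (key _).1 h2
    rw [pair_inj] at e1 e2
    rw [← e1.2, ← e2.2, j.injective (Subtype.ext (e1.1.trans e2.1.symm))]
  · obtain ⟨t, e⟩ := (key _).1 hp
    exact ⟨_, (j t).2, _, t.2, e⟩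

variable {θ : Cardinal.{u}} {x y : ZFSet.{u}}

theorem H_mem (h : y ∈ x) (hx : x ∈ H θ) : y ∈ H θ :=
  hx.imp fun _ ht => ⟨ht.1, ht.1 y (ht.2.1 h), ht.2.2⟩

theorem H_sub (h : y ⊆ x) (hx : x ∈ H θ) : y ∈ H θ :=
  hx.imp fun _ ht => ⟨ht.1, h.trans ht.2.1, ht.2.2⟩

theorem H_card (hx : x ∈ H θ) : x.card < θ :=
  hx.elim fun _ ht => (card_mono ht.2.1).trans_lt ht.2.2

theorem H_sUnion (hx : x ∈ H θ) : ⋃₀ x ∈ H θ :=
  hx.imp fun _ ht => ⟨ht.1, fun _ hz => (mem_sUnion.1 hz).elim fun a ha =>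
    ht.1 a (ht.2.1 ha.1) ha.2, ht.2.2⟩

theorem H_of (hθ : θ.IsRegular) (hc : x.card < θ) (h : ∀ y ∈ x, y ∈ H θ) : x ∈ H θ := by
  obtain ⟨ι, p, hι, hp⟩ := enum x
  choose t ht using fun i => h (p i) ((hp _).2 ⟨i, rfl⟩)
  refine ⟨x ∪ iUnion t, fun z hz w hw => mem_union.2 (.inr ?_), fun _ hz => mem_union.2 (.inl hz),
    card_union_le.trans_lt (add_lt_of_lt hθ.aleph0_le hc ((card_iUnion t).trans_lt
      (sum_lt_of_isRegular hθ (hι ▸ hc) fun i => (ht i).2.2)))⟩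
  rcases mem_union.1 hz with hz | hz
  · obtain ⟨i, rfl⟩ := (hp z).1 hz
    exact mem_iUnion.2 ⟨i, (ht i).2.1 hw⟩
  · obtain ⟨i, hi⟩ := mem_iUnion.1 hz
    exact mem_iUnion.2 ⟨i, (ht i).1 z hi hw⟩

theorem H_insert (hθ : θ.IsRegular) (hx : x ∈ H θ) (hy : y ∈ H θ) : insert x y ∈ H θ :=
  H_of hθ (card_insert_le.trans_lt (add_lt_of_lt hθ.aleph0_le (H_card hy)
    (one_lt_aleph0.trans_le hθ.aleph0_le)))
    fun _ hz => (mem_insert_iff.1 hz).elim (· ▸ hx) (H_mem · hy)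

theorem H_single (hθ : θ.IsRegular) (hx : x ∈ H θ) : ({x} : ZFSet.{u}) ∈ H θ :=
  H_of hθ (card_singleton.trans_lt (one_lt_aleph0.trans_le hθ.aleph0_le))
    fun _ hz => mem_singleton.1 hz ▸ hx

theorem H_pair (hθ : θ.IsRegular) (hx : x ∈ H θ) (hy : y ∈ H θ) : pair x y ∈ H θ :=
  H_insert hθ (H_single hθ hx) (H_single hθ (H_insert hθ hx (H_single hθ hy)))

theorem H_cov (hθ : θ.IsRegular) (hx : x ∈ H θ) (hy : y ∈ H θ) (h : x.card ≤ y.card) :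
    ∃ f ∈ H θ, Cov f y x := by
  obtain ⟨f, h1, h2, h3⟩ := exists_cov h
  refine ⟨f, H_of hθ (h2.trans_lt (H_card hx)) fun p hp => ?_, h1⟩
  obtain ⟨ξ, a, t, b, rfl⟩ := h3 p hp
  exact H_pair hθ (H_mem a hy) (H_mem b hx)

/-- A new first value. -/
def cs {α : Type*} (x : α) (v : ℕ → α) : ℕ → α
  | 0 => x
  | n + 1 => v n

theorem cs_all {α : Type*} {x : α} {v : ℕ → α} {p : α → Prop} (hx : p x) (hv : ∀ i, p (v i)) :
    ∀ i, p (cs x v i)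
  | 0 => hx
  | n + 1 => hv n

/-- Predicates that are expressed by a formula in `H θ`. -/
def Df (θ : Cardinal.{u}) (P : (ℕ → ZFSet.{u}) → Prop) : Prop :=
  ∃ φ : Language.graph.Formula ℕ, ∀ v : ℕ → H θ, P (fun i => (v i).1) ↔ φ.Realize v

/-- The existential quantifier on the first variable. -/
noncomputable def exF (φ : Language.graph.Formula ℕ) : Language.graph.Formula ℕ :=
  (φ.relabel (cs (Sum.inr ()) Sum.inl : ℕ → ℕ ⊕ Unit)).iExs Unit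

theorem realize_exF {A : Type*} [Language.graph.Structure A] (φ : Language.graph.Formula ℕ)
    (v : ℕ → A) : (exF φ).Realize v ↔ ∃ x, φ.Realize (cs x v) := by
  have e : ∀ i : Unit → A, Sum.elim v i ∘ (cs (Sum.inr ()) Sum.inl : ℕ → ℕ ⊕ Unit) =
      cs (i ()) v := fun i => funext fun n => by cases n <;> rfl
  simp only [exF, Formula.realize_iExs, Formula.realize_relabel, e]
  exact ⟨fun ⟨i, h⟩ => ⟨_, h⟩, fun ⟨x, h⟩ => ⟨fun _ => x, h⟩⟩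

theorem cs_val (x : H θ) (v : ℕ → H θ) :
    (fun i => (cs x v i).1) = cs x.1 fun i => (v i).1 := funext fun n => by cases n <;> rfl

namespace Df

variable {P Q : (ℕ → ZFSet.{u}) → Prop}

theorem congr (h : Df θ P) (e : ∀ v, (∀ i, v i ∈ H θ) → (Q v ↔ P v)) : Df θ Q :=
  h.imp fun _ hφ v => (e _ fun i => (v i).2).trans (hφ v)

theorem mem (i j : ℕ) : Df θ fun v => v i ∈ v j :=
  ⟨Language.adj.formula₂ (.var i) (.var j), fun _ => by rw [Formula.realize_rel₂]; rfl⟩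

theorem eq (i j : ℕ) : Df θ fun v => v i = v j :=
  ⟨Term.equal (.var i) (.var j), fun _ => by
    rw [Formula.realize_equal]; exact Subtype.ext_iff.symm⟩

theorem not (h : Df θ P) : Df θ fun v => ¬ P v :=
  h.elim fun φ hφ => ⟨φ.not, fun v => not_congr (hφ v)⟩

theorem and (h : Df θ P) (h' : Df θ Q) : Df θ fun v => P v ∧ Q v :=
  h.elim fun φ hφ => h'.elim fun ψ hψ =>
    ⟨φ ⊓ ψ, fun v => (and_congr (hφ v) (hψ v)).trans Formula.realize_inf.symm⟩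

theorem ex (h : Df θ P) : Df θ fun v => ∃ x ∈ H θ, P (cs x v) :=
  h.elim fun φ hφ => ⟨exF φ, fun v => by
    rw [realize_exF]
    exact ⟨fun ⟨x, hx, e⟩ => ⟨⟨x, hx⟩, (hφ _).1 (by rwa [cs_val])⟩,
      fun ⟨x, e⟩ => ⟨x.1, x.2, by rw [← cs_val]; exact (hφ _).2 e⟩⟩⟩

theorem ren (h : Df θ P) (r : ℕ → ℕ) : Df θ fun v => P fun i => v (r i) :=
  h.elim fun φ hφ => ⟨φ.relabel r, fun v => (hφ (v ∘ r)).trans Formula.realize_relabel.symm⟩

theorem imp (h : Df θ P) (h' : Df θ Q) : Df θ fun v => P v → Q v :=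
  (h.and h'.not).not.congr fun _ _ => by tauto

theorem or (h : Df θ P) (h' : Df θ Q) : Df θ fun v => P v ∨ Q v :=
  (h.not.and h'.not).not.congr fun _ _ => by tauto

theorem bex (i : ℕ) (h : Df θ P) : Df θ fun v => ∃ x ∈ v i, P (cs x v) :=
  ((mem 0 (i + 1)).and h).ex.congr fun _ hv =>
    ⟨fun ⟨x, a, b⟩ => ⟨x, H_mem a (hv i), a, b⟩, fun ⟨x, _, a⟩ => ⟨x, a⟩⟩

theorem ball (i : ℕ) (h : Df θ P) : Df θ fun v => ∀ x ∈ v i, P (cs x v) :=
  (bex i h.not).not.congr fun _ _ => by simp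

theorem all (h : Df θ P) : Df θ fun v => ∀ x ∈ H θ, P (cs x v) :=
  h.not.ex.not.congr fun _ _ => by simp

theorem sub (i j : ℕ) : Df θ fun v => v i ⊆ v j :=
  (ball i (mem 0 (j + 1))).congr fun _ _ => subset_def

theorem inter (i j k : ℕ) : Df θ fun v => v i = v j ∩ v k :=
  ((ball i ((mem 0 (j + 1)).and (mem 0 (k + 1)))).and
    (ball j ((mem 0 (k + 1)).imp (mem 0 (i + 1))))).congr fun _ _ =>
      ⟨fun e => ⟨fun _ h => mem_inter.1 (e ▸ h), fun _ a b => e.ge (mem_inter.2 ⟨a, b⟩)⟩,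
        fun h => ZFSet.ext fun z => ⟨fun a => mem_inter.2 (h.1 z a),
          fun a => h.2 z (mem_inter.1 a).1 (mem_inter.1 a).2⟩⟩

theorem upair (i j k : ℕ) : Df θ fun v => v i = {v j, v k} :=
  ((ball i ((eq 0 (j + 1)).or (eq 0 (k + 1)))).and ((mem j i).and (mem k i))).congr fun _ _ =>
    ⟨fun e => ⟨fun _ h => mem_pair.1 (e ▸ h), e.symm ▸ mem_pair.2 (.inl rfl),
      e.symm ▸ mem_pair.2 (.inr rfl)⟩, fun h => ZFSet.ext fun z => ⟨fun a => mem_pair.2 (h.1 z a),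
        fun a => (mem_pair.1 a).elim (· ▸ h.2.1) (· ▸ h.2.2)⟩⟩

theorem pm (i j k : ℕ) : Df θ fun v => pair (v i) (v j) ∈ v k :=
  (bex k (bex 0 (bex 1 ((upair 2 1 0).and ((upair 1 (i + 3) (i + 3)).and
    (upair 0 (i + 3) (j + 3))))))).congr fun v _ => by
      have e : ({v i, v i} : ZFSet.{u}) = {v i} := ZFSet.ext fun z => by simp
      refine ⟨fun h => ⟨_, h, {v i}, mem_pair.2 (.inl rfl), {v i, v j}, mem_pair.2 (.inr rfl),
        rfl, e.symm, rfl⟩, fun ⟨p, h, s, _, s', _, e1, e2, e3⟩ => ?_⟩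
      have e4 : p = {s, s'} := e1
      have e5 : s = {v i, v i} := e2
      have e6 : s' = {v i, v j} := e3
      rw [e4, e5, e6, e] at h
      exact h

theorem cov (i j k : ℕ) : Df θ fun v => Cov (v i) (v j) (v k) :=
  (ball k (bex (j + 1) (pm 0 1 (i + 2)))).and (ball j (ball (k + 1) (ball (k + 2)
    ((pm 2 1 (i + 3)).imp ((pm 2 0 (i + 3)).imp (eq 1 0))))))

theorem le (hθ : θ.IsRegular) (i j : ℕ) : Df θ fun v => (v i).card ≤ (v j).card :=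
  (cov 0 (j + 1) (i + 1)).ex.congr fun _ hv =>
    ⟨H_cov hθ (hv i) (hv j), fun ⟨_, _, h⟩ => h.card_le⟩

end Df

end Pool.Agent.Lib.MP_e276f9_lc
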