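import Pool.Agent.Lib.MP_e276f9_lc.Cl

/-! Covering below a singular size, weak Kurepa families, and the classification. -/

set_option autoImplicit false

namespace Pool.Agent.Lib.MP_e276f9_lc

open Cardinal ZFSet Order Ordinal

universe u

variable {θ γ : Cardinal.{u}} {M : ZFSet.{u}} {κ β : Ordinal.{u}}

theorem inter_ord {y : ZFSet.{u}} {η ζ : Ordinal.{u}} (h : η ≤ ζ) :
    y ∩ ζ.toZFSet ∩ η.toZFSet = y ∩ η.toZFSet :=
  ZFSet.ext fun t => by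
    simp only [mem_inter]
    exact ⟨fun a => ⟨a.1.1, a.2⟩, fun a => ⟨⟨a.1, toZFSet_monotone h a.2⟩, a.2⟩⟩

theorem Guessing.mono {δ : Cardinal.{u}} (hg : Guessing γ M) (h : γ ≤ δ) : Guessing δ M :=
  fun x hx ha => hg x hx fun a m c => ha a m (c.trans_le h)

theorem Elem.of_guessed (h : Elem M θ) {x i : ZFSet.{u}} (hx : Guessed M x) (h1 : x ⊆ i)
    (h2 : i ∈ M) (h3 : i ⊆ M) : x ∈ M := by
  obtain ⟨y, hy, e⟩ := hx
  have e1 := ZFSet.ext_iff.1 e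
  simp only [mem_inter] at e1
  have e2 : y ∩ i = x := ZFSet.ext fun t => mem_inter.trans
    ⟨fun a => ((e1 t).1 ⟨a.1, h3 a.2⟩).1, fun a => ⟨((e1 t).2 ⟨a, h3 (h1 a)⟩).1, h1 a⟩⟩
  exact e2 ▸ h.inter hy h2

/-- A set with all initial segments in `M` is caught by a small set of `M` or is a trace. -/
theorem fresh (h : Elem M θ) (hP : powerset κ.toZFSet ∈ M) (hg : Guessing γ M) (hβ : β ≤ κ)
    (hl : IsSuccLimit β) (hM : β.toZFSet ⊆ M) {y : ZFSet.{u}} (hy : y ⊆ β.toZFSet)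
    (hi : ∀ η < β, y ∩ η.toZFSet ∈ M) :
    (∃ b ∈ M, b.card < γ ∧ ∀ η < β, ∃ ζ, η ≤ ζ ∧ ζ < β ∧ y ∩ ζ.toZFSet ∈ b) ∨
      ∃ w ∈ M, w ∩ M = y := by
  refine or_iff_not_imp_left.2 fun hn => ?_
  push Not at hn
  obtain ⟨Y, hY, hb⟩ : ∃ Y : ZFSet.{u}, (∀ r, r ∈ Y ↔ ∃ η < β, r = y ∩ η.toZFSet) ∧
      Y ⊆ powerset κ.toZFSet :=
    ⟨(powerset κ.toZFSet).sep fun r => ∃ η < β, r = y ∩ η.toZFSet, fun r => mem_sep.trans
      (and_iff_right_of_imp fun ⟨η, _, e⟩ => mem_powerset.2 fun t ht =>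
        toZFSet_monotone hβ (hy (mem_inter.1 (e ▸ ht)).1)), fun _ a => (mem_sep.1 a).1⟩
  obtain ⟨Z, hZ, e⟩ := hg Y ⟨_, hP, hb⟩ fun b m c => by
    obtain ⟨η, h1, h2⟩ := hn b m c
    have h3 := h.sep (Df.bex 1 (Df.inter 1 3 0)) (v := cs η.toZFSet fun _ => y ∩ η.toZFSet)
      (cs_all (hM (toZFSet_mem_toZFSet_iff.2 h1)) fun _ => hi η h1) m
    convert h3 using 1
    refine ZFSet.ext fun r => mem_inter.trans (Iff.trans ?_ mem_sep.symm)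
    refine ⟨fun ⟨a, d⟩ => ⟨d, ?_⟩, fun ⟨d, s, a, e⟩ => ⟨?_, d⟩⟩
    · obtain ⟨ζ, h4, rfl⟩ := (hY r).1 a
      have h5 : ζ < η := not_le.1 fun h5 => h2 ζ h5 h4 d
      exact ⟨_, toZFSet_mem_toZFSet_iff.2 h5, (inter_ord h5.le).symm⟩
    · obtain ⟨ζ, h5, rfl⟩ := mem_toZFSet_iff.1 a
      exact (hY r).2 ⟨ζ, h5.trans h1, Eq.trans e (inter_ord h5.le)⟩
  have e1 := ZFSet.ext_iff.1 e
  simp only [mem_inter] at e1
  refine ⟨_, h.sUnion hZ, ZFSet.ext fun t => mem_inter.trans ⟨fun a => ?_, fun a => ?_⟩⟩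
  · obtain ⟨r, h1, h2, h3⟩ := h.exists_mem hZ a.2 a.1
    obtain ⟨η, -, rfl⟩ := (hY r).1 ((e1 r).1 ⟨h2, h1⟩).1
    exact (mem_inter.1 h3).1
  · obtain ⟨ζ, h1, rfl⟩ := mem_toZFSet_iff.1 (hy a)
    exact ⟨mem_sUnion.2 ⟨_, ((e1 _).2 ⟨(hY _).2 ⟨_, hl.succ_lt h1, rfl⟩, hi _ (hl.succ_lt h1)⟩).1,
      mem_inter.2 ⟨a, toZFSet_mem_toZFSet_iff.2 (lt_succ ζ)⟩⟩, hM (hy a)⟩

/-- A small set extends to a set of size at most `γ` with initial segments in `M`. -/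
theorem chain (h : Elem M θ) (hγ : γ.IsRegular) (hg : Guessing γ M) (hM : β.toZFSet ⊆ M)
    (ih : ∀ η < β, ∀ z ⊆ η.toZFSet, z.card < γ → ∃ a ∈ M, z ⊆ a ∧ a.card < γ)
    {z : ZFSet.{u}} (hz : z ⊆ β.toZFSet) (hc : z.card < γ) :
    ∃ y, z ⊆ y ∧ y ⊆ β.toZFSet ∧ y.card ≤ γ ∧ ∀ i ∈ z, y ∩ i ∈ M := by
  have h0 : ∀ i s : ZFSet.{u}, ∃ a, a ⊆ i ∧ (i ∈ z → s.card < γ →
      a ∈ M ∧ s ∩ i ⊆ a ∧ a.card < γ) := fun i s => by
    by_cases c : i ∈ z ∧ s.card < γ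
    · obtain ⟨η, h1, rfl⟩ := mem_toZFSet_iff.1 (hz c.1)
      obtain ⟨a, h2, h3, h4⟩ := ih η h1 (s ∩ η.toZFSet) (fun _ d => (mem_inter.1 d).2)
        ((card_mono fun _ d => (mem_inter.1 d).1).trans_lt c.2)
      exact ⟨a ∩ η.toZFSet, fun _ d => (mem_inter.1 d).2, fun _ _ => ⟨h.inter h2 (hM (hz c.1)),
        fun _ d => mem_inter.2 ⟨h3 d, (mem_inter.1 d).2⟩,
        (card_mono fun _ d => (mem_inter.1 d).1).trans_lt h4⟩⟩
    · exact ⟨i, subset_rfl, fun a b => absurd ⟨a, b⟩ c⟩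
  choose c hc0 hc1 using h0
  obtain ⟨S, hS⟩ : ∃ S : ZFSet.{u} → ZFSet.{u},
      ∀ x, S x = z ∪ bU x fun e => bU z fun i => c i (S e) :=
    ⟨mem_wf.fix fun x ih => z ∪ iUnion fun e : Shrink x => bU z fun i =>
      c i (ih _ ((equivShrink x).symm e).2), fun x => mem_wf.fix_eq _ x⟩
  have h1 : ∀ x t, t ∈ S x ↔ t ∈ z ∨ ∃ e ∈ x, ∃ i ∈ z, t ∈ c i (S e) := fun x t => by
    rw [hS x]
    simp only [mem_union, mem_bU]
  have h2 : ∀ ξ < γ.ord, (S ξ.toZFSet).card < γ := fun ξ => by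
    induction ξ using WellFoundedLT.induction with
    | ind ξ ih =>
    intro hξ
    rw [hS]
    refine card_union_le.trans_lt (add_lt_of_lt hγ.aleph0_le hc (card_bU_lt hγ
      ((card_toZFSet ξ).trans_lt (lt_ord.1 hξ)) fun e he => ?_))
    obtain ⟨ζ, h3, rfl⟩ := mem_toZFSet_iff.1 he
    exact card_bU_lt hγ hc fun i hi => (hc1 i _ hi (ih ζ h3 (h3.trans hξ))).2.2
  have h3 : ∀ i ∈ z, i ⊆ β.toZFSet := fun i hi => (isOrdinal_toZFSet β).subset_of_mem (hz hi)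
  refine ⟨S γ.ord.toZFSet, fun t ht => (h1 _ t).2 (.inl ht), fun t ht => ?_, ?_, fun i hi => ?_⟩
  · rcases (h1 _ t).1 ht with a | ⟨e, -, i, hi, a⟩
    · exact hz a
    · exact h3 i hi (hc0 _ _ a)
  · rw [hS]
    refine card_union_le.trans (add_le_of_le hγ.aleph0_le hc.le (card_bU_le hγ.aleph0_le
      ((card_toZFSet _).trans (card_ord γ)).le fun e he => ?_))
    obtain ⟨ζ, h4, rfl⟩ := mem_toZFSet_iff.1 he
    exact (card_bU_lt hγ hc fun i hi => (hc1 i _ hi (h2 ζ h4)).2.2).le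
  · refine h.of_guessed (hg _ ⟨i, hM (hz hi), fun _ d => (mem_inter.1 d).2⟩ fun a m ha => ?_)
      (fun _ d => (mem_inter.1 d).2) (hM (hz hi)) ((h3 i hi).trans hM)
    obtain ⟨ζ, h4, h5⟩ := bdd hγ (z := S γ.ord.toZFSet ∩ a)
      ((card_mono fun _ d => (mem_inter.1 d).2).trans_lt ha)
      (R := fun t ξ => t ∈ z ∨ ∃ i ∈ z, t ∈ c i (S ξ.toZFSet)) fun t ht => by
        rcases (h1 _ t).1 (mem_inter.1 ht).1 with a | ⟨e, he, a⟩
        · exact ⟨0, hγ.ord_pos, .inl a⟩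
        · obtain ⟨ξ, h4, rfl⟩ := mem_toZFSet_iff.1 he
          exact ⟨ξ, h4, .inr a⟩
    obtain ⟨h6, h7, -⟩ := hc1 i _ hi (h2 ζ h4)
    convert h.inter h6 m using 1
    refine ZFSet.ext fun t => ?_
    simp only [mem_inter]
    refine and_congr_left fun d => ⟨fun b => h7 (mem_inter.2 ⟨?_, b.2⟩), fun b =>
      ⟨(h1 _ t).2 (.inr ⟨_, toZFSet_mem_toZFSet_iff.2 h4, i, hi, b⟩), hc0 _ _ b⟩⟩
    obtain ⟨ξ, h8, h9⟩ := h5 t (mem_inter.2 ⟨b.1, d⟩)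
    exact (h1 _ t).2 (h9.imp_right fun h9 => ⟨_, toZFSet_mem_toZFSet_iff.2 h8, h9⟩)

/-- A cover of size `γ` can be cut down. -/
theorem cut (h : Elem M θ) (hθ : θ.IsRegular) (hγ : γ.IsRegular) (h1 : γ.ord.toZFSet ∈ M)
    (h2 : γ.ord.toZFSet ⊆ M) {a z : ZFSet.{u}} (ha : a ∈ M) (hc : a.card ≤ γ) (hz : z ⊆ a)
    (hzc : z.card < γ) : ∃ a ∈ M, z ⊆ a ∧ a.card < γ := by
  obtain ⟨f, hf, h3⟩ := h.cov hθ ha h1 (hc.trans ((card_toZFSet _).trans (card_ord γ)).ge)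
  obtain ⟨ζ, h4, h5⟩ := bdd hγ hzc (R := fun t ξ => pair ξ.toZFSet t ∈ f) fun t ht => by
    obtain ⟨e, he, d⟩ := h3.1 t (hz ht)
    obtain ⟨ξ, h4, rfl⟩ := mem_toZFSet_iff.1 he
    exact ⟨ξ, h4, d⟩
  refine ⟨_, h.img hf (h2 (toZFSet_mem_toZFSet_iff.2 h4)) ha, fun t ht => ?_,
    (h3.card_img (toZFSet_monotone h4.le)).trans_lt ((card_toZFSet ζ).trans_lt (lt_ord.1 h4))⟩
  obtain ⟨ξ, h6, h7⟩ := h5 t ht
  exact mem_sep.2 ⟨hz ht, _, toZFSet_mem_toZFSet_iff.2 h6, h7⟩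

/-- Covering of small sets of ordinals. -/
theorem cover (h : Elem M θ) (hθ : θ.IsRegular) (hP : powerset κ.toZFSet ∈ M) (hγ : γ.IsRegular)
    (hg : Guessing γ M) {L : Ordinal.{u}} (hL : (succ γ).ord < L) (hM : L.toZFSet ⊆ M)
    (hκ : L ≤ κ) : ∀ β ≤ L, ∀ z ⊆ β.toZFSet, z.card < γ → ∃ a ∈ M, z ⊆ a ∧ a.card < γ := by
  have m1 : ∀ η < L, η.toZFSet ∈ M := fun η a => hM (toZFSet_mem_toZFSet_iff.2 a)
  have m2 : ∀ η ≤ L, η.toZFSet ⊆ M := fun η a => (toZFSet_monotone a).trans hM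
  have m3 : γ.ord < L := (ord_lt_ord.2 (lt_succ γ)).trans hL
  have m4 : γ.ord.toZFSet.card = γ := (card_toZFSet _).trans (card_ord γ)
  intro β
  induction β using WellFoundedLT.induction with
  | ind β ih =>
  intro hβ z hz hc
  have ih' := fun η (a : η < β) => ih η a (a.le.trans hβ)
  rcases zero_or_succ_or_isSuccLimit β with rfl | ⟨η, rfl⟩ | hl
  · exact ⟨∅, h.empty hP, toZFSet_zero ▸ hz, card_empty.trans_lt hγ.pos⟩
  · obtain ⟨a, h1, h2, h3⟩ := ih' η (lt_succ η) (z ∩ η.toZFSet) (fun _ d => (mem_inter.1 d).2)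
      ((card_mono fun _ d => (mem_inter.1 d).1).trans_lt hc)
    refine ⟨_, h.insert hθ (m1 η ((lt_succ η).trans_le hβ)) h1, fun t ht => ?_,
      card_insert_le.trans_lt (add_lt_of_lt hγ.aleph0_le h3
        (one_lt_aleph0.trans_le hγ.aleph0_le))⟩
    exact mem_insert_iff.2 ((mem_insert_iff.1 (toZFSet_add_one η ▸ hz ht)).imp_right
      fun d => h2 (mem_inter.2 ⟨ht, d⟩))
  by_cases hb : ∃ η < β, z ⊆ η.toZFSet
  · exact hb.elim fun η a => ih' η a.1 z a.2 hc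
  obtain ⟨y, h1, h2, h3, h4⟩ := chain h hγ hg (m2 β hβ) ih' hz hc
  rcases fresh h hP hg (hβ.trans hκ) hl (m2 β hβ) h2 (fun η a => by
    obtain ⟨i, h5, h6⟩ : ∃ i ∈ z, i ∉ η.toZFSet := by
      by_contra c
      push Not at c
      exact hb ⟨η, a, c⟩
    obtain ⟨ζ, -, rfl⟩ := mem_toZFSet_iff.1 (hz h5)
    rw [← inter_ord (not_lt.1 fun d => h6 (toZFSet_mem_toZFSet_iff.2 d))]
    exact h.inter (h4 _ h5) (m1 η (a.trans_le hβ))) with ⟨b, h5, h6, h7⟩ | ⟨w, h5, h6⟩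
  · have h8 := h.sUnion (h.sep (Df.le hθ 0 1) (v := fun _ => γ.ord.toZFSet)
      (fun _ => m1 _ m3) h5)
    refine cut h hθ hγ (m1 _ m3) (m2 _ m3.le) h8 (le_trans (card_mono (y := bU (b.sep fun r =>
      r.card ≤ γ.ord.toZFSet.card) id) fun t ht => mem_bU.2 (mem_sUnion.1 ht))
      (card_bU_le hγ.aleph0_le ((card_mono fun _ d => (mem_sep.1 d).1).trans h6.le)
        fun i hi => (mem_sep.1 hi).2.trans m4.le)) (fun t ht => ?_) hc
    obtain ⟨ξ, h9, rfl⟩ := mem_toZFSet_iff.1 (hz ht)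
    obtain ⟨ζ, d1, -, d2⟩ := h7 _ (hl.succ_lt h9)
    exact mem_sUnion.2 ⟨_, mem_sep.2 ⟨d2, le_trans (card_mono fun _ d => (mem_inter.1 d).1)
      (h3.trans m4.ge)⟩, mem_inter.2 ⟨h1 ht, toZFSet_mem_toZFSet_iff.2 (succ_le_iff.1 d1)⟩⟩
  · refine cut h hθ hγ (m1 _ m3) (m2 _ m3.le) h5 (not_lt.1 fun c => ?_)
      (fun t ht => (mem_inter.1 (h6 ▸ h1 ht)).1) hc
    have m5 : (succ γ).ord.toZFSet.card = succ γ := (card_toZFSet _).trans (card_ord _)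
    have h7 := h.card_inter hθ h5 (m1 _ hL) (m2 _ hL.le) (m5.le.trans (succ_le_iff.2 c))
    rw [m5, h6] at h7
    exact (lt_succ γ).not_ge (h7.trans h3)

/-- A model of singular size that contains its size is not guessing below its size. -/
theorem not_guessing_singular (h : Elem M θ) (hθ : θ.IsRegular) (hP : powerset κ.toZFSet ∈ M)
    (hs : M.card.IsSingular) (hM : M.card.ord.toZFSet ⊆ M) (hκ : M.card.ord ≤ κ)
    (hγ : γ.IsRegular) (hl : γ ≤ M.card) : ¬ Guessing γ M := fun hg => by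
  have h0 : ℵ₀ ≤ max γ M.card.ord.cof := hγ.aleph0_le.trans (le_max_left _ _)
  have h1 : succ (max γ M.card.ord.cof) < M.card := hs.isSuccLimit.succ_lt
    (max_lt (hl.lt_of_ne fun e => hs.not_isRegular (e ▸ hγ)) hs.cof_ord_lt)
  have h2 := cover h hθ hP (isRegular_succ h0) (hg.mono ((le_max_left _ _).trans (le_succ _)))
    (ord_lt_ord.2 (hs.isSuccLimit.succ_lt h1)) hM hκ _ le_rfl
  have m : M.card.ord.toZFSet.card = M.card := (card_toZFSet _).trans (card_ord _)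
  obtain ⟨s, h3, h4⟩ := exists_cof_eq M.card.ord.ToType
  obtain ⟨f, hf, -, -⟩ := exists_cov m.ge
  have h5 : ∀ i : s, ∃ t ∈ M.card.ord.toZFSet, ∀ a ∈ img f (succ (ToType.mk.symm i.1).1).toZFSet M,
      a.card < succ (max γ M.card.ord.cof) → t ∉ a := fun i => by
    by_contra c
    push Not at c
    have h5 := (isSuccLimit_ord hs.aleph0_le).succ_lt (Set.mem_Iio.1 (ToType.mk.symm i.1).2)
    have h6 := (hf.card_img (toZFSet_monotone h5.le)).trans_lt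
      ((card_toZFSet _).trans_lt (lt_ord.1 h5))
    refine (max_lt h6 h1).not_ge (m.ge.trans ((card_mono (y := bU ((img f _ M).sep fun a =>
      a.card < succ (max γ M.card.ord.cof)) id) fun t ht => ?_).trans (card_bU_le
        (h0.trans ((le_succ _).trans (le_max_right _ _)))
        ((card_mono fun _ d => (mem_sep.1 d).1).trans (le_max_left _ _))
        fun a d => (mem_sep.1 d).2.le.trans (le_max_right _ _))))
    obtain ⟨a, d1, d2, d3⟩ := c t ht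
    exact mem_bU.2 ⟨a, mem_sep.2 ⟨d1, d2⟩, d3⟩
  choose t ht using h5
  obtain ⟨a, h5, h6, h7⟩ := h2 (range t) (fun _ d => (mem_range.1 d).elim fun i e => e ▸ (ht i).1)
    ((card_range t).trans_lt (lt_succ_iff.2
      ((h4.trans (cof_toType _)).le.trans (le_max_right _ _))))
  obtain ⟨e, he, h8⟩ := hf.1 a h5
  obtain ⟨ξ, h9, rfl⟩ := mem_toZFSet_iff.1 he
  obtain ⟨i, hi, d⟩ := h3 (ToType.mk ⟨ξ, h9⟩)
  refine (ht ⟨i, hi⟩).2 a (mem_sep.2 ⟨h5, _, toZFSet_mem_toZFSet_iff.2 (lt_succ_iff.2 ?_), h8⟩)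
    h7 (h6 (mem_range.2 ⟨_, rfl⟩))
  exact (ToType.mk.le_symm_apply (x := ⟨ξ, h9⟩)).2 d

/-- A weak Kurepa family destroys guessing. -/
theorem not_guessing_kurepa (h : Elem M θ) (hθ : θ.IsRegular) (hγ : γ.IsRegular)
    (hc : M.card ≤ γ) (h1 : γ.ord.toZFSet ∈ M) (h2 : γ.ord.toZFSet ⊆ M) (hp : 2 ^ γ < θ)
    (hk : WeakKurepa γ) : ¬ Guessing γ M := fun hg => by
  have m : γ.ord.toZFSet.card = γ := (card_toZFSet _).trans (card_ord _)
  have hP := h.memH (h.powerset hθ h1 (m.symm ▸ hp))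
  obtain ⟨F, T, k1, k2, k3⟩ := hk
  have hD : Df θ _ := (Df.le hθ 0 2).not.and ((Df.le hθ 1 2).and (Df.ball 0 ((Df.sub 0 3).and
    (Df.ball 3 (Df.bex 3 (Df.inter 0 2 1))))))
  obtain ⟨T', hT, hF⟩ := h.ex hD.ex (v := fun _ => γ.ord.toZFSet) (fun _ => h1)
    ⟨T ∩ powerset γ.ord.toZFSet, H_sub (fun _ d => (mem_inter.1 d).2) hP, F,
      H_sub (fun y d => mem_powerset.2 (k3 y d).1) hP, (m.trans_lt k1).not_ge,
      le_trans (card_mono fun _ d => (mem_inter.1 d).1) (k2.trans m.ge), fun y hy =>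
        ⟨(k3 y hy).1, fun e he => ⟨y ∩ e, mem_inter.2 ⟨by
          obtain ⟨α, d, rfl⟩ := mem_toZFSet_iff.1 he
          exact (k3 y hy).2 α d, mem_powerset.2 fun _ d => (k3 y hy).1 (mem_inter.1 d).1⟩, rfl⟩⟩⟩
  obtain ⟨F', -, k4, k5, k6⟩ := h.ex hD (cs_all hT fun _ => h1) hF
  refine k4 (le_trans (card_mono fun y hy => ?_) (hc.trans m.ge))
  refine h.of_guessed (hg y ⟨_, h1, (k6 y hy).1⟩ fun a ha c => ?_) (k6 y hy).1 h1 h2
  obtain ⟨ζ, h3, h4⟩ := bdd hγ (z := y ∩ a) ((card_mono fun _ d => (mem_inter.1 d).2).trans_lt c)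
    (R := fun t ξ => ξ.toZFSet = t) fun t ht => mem_toZFSet_iff.1 ((k6 y hy).1 (mem_inter.1 ht).1)
  obtain ⟨r, h5, h6⟩ := (k6 y hy).2 _ (toZFSet_mem_toZFSet_iff.2 h3)
  obtain rfl : r = y ∩ ζ.toZFSet := h6
  convert h.inter (h.small hθ hT h1 h2 k5 h5) ha using 1
  refine ZFSet.ext fun t => ?_
  simp only [mem_inter]
  exact and_congr_left fun d => ⟨fun b => ⟨b, mem_toZFSet_iff.2 (h4 t (mem_inter.2 ⟨b, d⟩))⟩,
    fun b => b.1⟩

/-- Without weak Kurepa families guessing goes down one step. -/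
theorem guessing_down (h : Elem M θ) (hθ : θ.IsRegular) (hP : powerset κ.toZFSet ∈ M)
    {δ : Cardinal.{u}} (hg : Guessing δ M) (hγ : ℵ₀ ≤ γ) (hκ : γ.ord ≤ κ)
    (hδ : ∀ a ∈ M, a.card < δ → a.card ≤ γ) (h1 : γ.ord.toZFSet ∈ M) (h2 : γ.ord.toZFSet ⊆ M)
    (hk : ¬ WeakKurepa γ) : Guessing γ M := by
  have m : γ.ord.toZFSet.card = γ := (card_toZFSet _).trans (card_ord _)
  have key : ∀ y ⊆ γ.ord.toZFSet, (∀ η < γ.ord, y ∩ η.toZFSet ∈ M) → y ∈ M := fun y hy hi => by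
    rcases fresh h hP hg hκ (isSuccLimit_ord hγ) h2 hy hi with ⟨b, h3, h4, h5⟩ | ⟨w, h3, h4⟩
    · have h6 := h.sep ((Df.sub 0 1).and (Df.ball 1 (Df.bex 3 (Df.ball 1
        (((Df.mem 0 3).imp (Df.mem 0 1)).and ((Df.mem 0 1).imp (Df.mem 0 3)))))))
        (v := cs γ.ord.toZFSet fun _ => b) (cs_all h1 fun _ => h3) hP
      refine h.small hθ h6 h1 h2 (le_trans (not_lt.1 fun c => hk ⟨_, bU b fun r =>
        bU γ.ord.toZFSet fun e => {r ∩ e}, c, card_bU_le hγ (hδ b h3 h4) fun r _ =>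
          card_bU_le hγ m.le fun e _ => card_singleton.le.trans (one_le_aleph0.trans hγ),
          fun w hw => ⟨(mem_sep.1 hw).2.1, fun α d => ?_⟩⟩) m.ge)
        (mem_sep.2 ⟨mem_powerset.2 (hy.trans (toZFSet_monotone hκ)), hy, fun e he => ?_⟩)
      · obtain ⟨r, d1, d2⟩ := (mem_sep.1 hw).2.2 _ (toZFSet_mem_toZFSet_iff.2 d)
        refine mem_bU.2 ⟨r, d1, mem_bU.2 ⟨_, toZFSet_mem_toZFSet_iff.2 d,
          mem_singleton.2 (ZFSet.ext fun t => ?_)⟩⟩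
        simp only [mem_inter]
        exact and_congr_left fun d3 => ⟨(d2 t d3).1, (d2 t d3).2⟩
      · obtain ⟨α, d, rfl⟩ := mem_toZFSet_iff.1 he
        obtain ⟨ζ, d1, -, d2⟩ := h5 α d
        exact ⟨_, d2, fun t d3 => ⟨fun d4 => mem_inter.2 ⟨d4, toZFSet_monotone d1 d3⟩,
          fun d4 => (mem_inter.1 d4).1⟩⟩
    · refine h.of_guessed ⟨w, h3, h4.trans (ZFSet.ext fun t => ?_)⟩ hy h1 h2
      exact ⟨fun d => mem_inter.2 ⟨d, h2 (hy d)⟩, fun d => (mem_inter.1 d).1⟩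
  refine fun x hx ha => hg x hx fun a h3 h4 => ?_
  obtain ⟨f, hf, h5⟩ := h.cov hθ h3 h1 ((hδ a h3 h4).trans m.ge)
  have h6 := key (pre f (x ∩ a) γ.ord.toZFSet) (fun _ d => (mem_sep.1 d).1) fun η d => by
    have d1 := h2 (toZFSet_mem_toZFSet_iff.2 d)
    convert h.pre hf (ha _ (h.img hf d1 h3) ((h5.card_img (toZFSet_monotone d.le)).trans_lt
      ((card_toZFSet η).trans_lt (lt_ord.1 d)))) d1 using 1
    refine ZFSet.ext fun ξ => ?_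
    simp only [pre, img, mem_inter, mem_sep]
    exact ⟨fun ⟨⟨_, t, d2, d3⟩, d4⟩ => ⟨d4, t, ⟨d2.1, d2.2, ξ, d4, d3⟩, d3⟩,
      fun ⟨d4, t, d2, d3⟩ => ⟨⟨toZFSet_monotone d.le d4, t, ⟨d2.1, d2.2.1⟩, d3⟩, d4⟩⟩
  convert h.img hf h6 h3 using 1
  refine ZFSet.ext fun t => ?_
  simp only [pre, img, mem_inter, mem_sep]
  refine ⟨fun d => ⟨d.2, (h5.1 t d.2).imp fun ξ d1 => ⟨⟨d1.1, t, d, d1.2⟩, d1.2⟩⟩,
    fun ⟨d, ξ, ⟨d1, s, d2, d3⟩, d4⟩ => ⟨h5.2 ξ d1 s d2.2 t d d3 d4 ▸ d2.1, d⟩⟩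

theorem classification {δ : Cardinal.{u}} (hθ : θ.IsRegular) (hδ : δ.IsRegular) (h : Elem M θ)
    (hc : M.card < δ) (hκ : δ.ord ≤ kap M) (hp : 2 ^ (kap M).card < θ) (hg : Guessing δ M) :
    (¬ Guessing0 M ∧ ∀ γ : Cardinal.{u}, γ.IsRegular → γ ≤ M.card → ¬ Guessing γ M) ↔
      M.card.ord.toZFSet ⊆ M ∧
        (M.card.IsSingular ∨ (M.card.ord.toZFSet ∈ M ∧ WeakKurepa M.card)) := by
  have k0 : (kap M).toZFSet ∈ M := by
    refine (csInf_mem (s := {α : Ordinal.{u} | α.toZFSet ∈ M ∧ ¬ α.toZFSet ⊆ M})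
      (Set.nonempty_iff_ne_empty.2 fun e => ?_)).1
    rw [kap, e, Ordinal.sInf_empty] at hκ
    exact hδ.ord_pos.not_ge hκ
  have k1 : ∀ a ∈ M, a.card < δ → a.card.ord.toZFSet ∈ M ∧ a.card.ord.toZFSet ⊆ M :=
    fun a ha c => by
      have h1 := (ord_lt_ord.2 c).trans_le hκ
      have h2 := h.card_mem hθ ha k0 h1
      exact ⟨h2, by_contra fun d => h1.not_ge (csInf_le' ⟨h2, d⟩)⟩
  have k2 : ∀ γ, (∀ a ∈ M, a.card < δ → a.card < γ) → Guessing γ M :=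
    fun γ e x hx ha => hg x hx fun a m c => ha a m (e a m c)
  have k3 : ∀ a ∈ M, a.card < δ → a.card ≤ M.card := fun a ha c =>
    ((card_toZFSet _).trans (card_ord _)).ge.trans (card_mono (k1 a ha c).2)
  have h0 := h.aleph0_le hθ k0
  have hP := h.powerset hθ k0 ((card_toZFSet _).symm ▸ hp)
  have hl := (ord_le_ord.2 hc.le).trans hκ
  refine ⟨fun ⟨_, hn⟩ => ⟨fun t ht => by_contra fun c => ?_,
    (isRegular_or_isSingular h0).symm.imp_right fun hr => ?_⟩, fun ⟨h1, h2⟩ => ?_⟩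
  · obtain ⟨η, h1, rfl⟩ := mem_toZFSet_iff.1 ht
    have h2 : ∀ a ∈ M, a.card < δ → a.card ≤ η.card := fun a ha d => not_lt.1 fun e =>
      c ((k1 a ha d).2 (toZFSet_mem_toZFSet_iff.2 (lt_ord.2 e)))
    rcases lt_or_ge η.card ℵ₀ with e | e
    · exact hn _ isRegular_aleph0 h0 (k2 _ fun a ha d => (h2 a ha d).trans_lt e)
    · exact hn _ (isRegular_succ e) (succ_le_iff.2 (lt_ord.1 h1))
        (k2 _ fun a ha d => lt_succ_iff.2 (h2 a ha d))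
  · have h1 : M.card.ord.toZFSet ∈ M := by_contra fun c => hn _ hr le_rfl
      (k2 _ fun a ha d => (k3 a ha d).lt_of_ne fun e => c (e ▸ (k1 a ha d).1))
    exact ⟨h1, by_contra fun c => hn _ hr le_rfl (guessing_down h hθ hP hg h0 hl k3 h1
      (by_contra fun d => ((ord_lt_ord.2 hc).trans_le hκ).not_ge (csInf_le' ⟨h1, d⟩)) c)⟩
  · have h3 : ∀ γ : Cardinal.{u}, γ.IsRegular → γ ≤ M.card → ¬ Guessing γ M := fun γ hγ e => by
      rcases isRegular_or_isSingular h0 with hr | hs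
      · obtain ⟨h3, h4⟩ := h2.resolve_left hr.not_isSingular
        exact fun c => not_guessing_kurepa h hθ hr le_rfl h3 h1 (lt_of_le_of_lt
          (power_le_power_left two_ne_zero ((card_ord _).ge.trans (card_le_card hl))) hp) h4
          (c.mono e)
      · exact not_guessing_singular h hθ hP hs h1 hl hγ e
    exact ⟨fun c => h3 _ isRegular_aleph0 h0 fun x hx _ => c x hx, h3⟩

end Pool.Agent.Lib.MP_e276f9_lc
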